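import Mathlib
import Pool.Agent.H29.Gyro

namespace Pool.Agent.Results.MP_9437d9_an.Definite

open Matrix Pool.Agent.Results.MP_554556_an.Definite Pool.Agent.H29.Gyro

/-- Stable boundedness within the class: hermitian for odd `k`, skewhermitian for even `k`. -/
def StabG {n : ℕ} (l : ℕ) (A : ℕ → Mt (Fin n)) : Prop :=
  ∃ ε > 0, ∀ A', SymG l A' → (∀ j ≤ l, ∀ a b, ‖A' j a b - A j a b‖ < ε) → Bdd l A'

theorem result (n l : ℕ) (hl : 1 ≤ l) (A : ℕ → Mt (Fin n)) (hs : SymG l A) (hA : IsUnit (A l))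
    (ht : StabG l A) (a : H) (ha : IsEig (comp l A) a) : Def (gm l A) (Root (comp l A) a) := by
  obtain ⟨L, rfl⟩ : ∃ L, l = L + 1 := ⟨l - 1, by omega⟩
  obtain ⟨ε, hε, ht⟩ := ht
  refine core hs hA ⟨ε, hε, fun E0 E1 h0 h1 hsm => ht _ (fun k hk => ?_) fun j _ i i' => ?_⟩ a ha
  · simp only [pt, conjTranspose_add]
    refine ⟨fun h => ?_, fun h => ?_⟩
    · rw [(hs k hk).1 h, if_neg (by rintro rfl; simp at h)]
      split_ifs <;> simp [h1]
    · rw [(hs k hk).2 h, neg_add]
      split_ifs with h2 h3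
      · rw [h0]
      · subst h3; simp at h
      · simp
  · simp only [pt, Matrix.add_apply, add_sub_cancel_left]
    split_ifs
    · exact (hsm i i').1
    · exact (hsm i i').2
    · simpa using hε

end Pool.Agent.Results.MP_9437d9_an.Definite
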